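import Mathlib

/-!
MP_df6280_nt. Two lemmas for the count: the sum over the square parts, and the size of a cofactor.
-/

set_option autoImplicit false

namespace Pool.Agent.TWQ

open Finset

/-- the constant of the sum over the square parts -/
noncomputable def ZZ (K : ℕ) : ℝ := ∑' v : ℕ, ((v : ℝ) ^ (2 * (((K : ℝ) - 1) / K)))⁻¹

theorem ZZ_nonneg (K : ℕ) : 0 ≤ ZZ K := tsum_nonneg fun v => by positivity

theorem sum_le_ZZ {K : ℕ} (hK : 3 ≤ K) (S : Finset ℕ) :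
    ∑ v ∈ S, ((v : ℝ) ^ (2 * (((K : ℝ) - 1) / K)))⁻¹ ≤ ZZ K := by
  have hs : Summable fun v : ℕ => ((v : ℝ) ^ (2 * (((K : ℝ) - 1) / K)))⁻¹ := by
    rw [Real.summable_nat_rpow_inv]
    have hK0 : (3 : ℝ) ≤ K := by exact_mod_cast hK
    have hK1 : (0 : ℝ) < K := by linarith
    rw [← mul_div_assoc, lt_div_iff₀ hK1]
    linarith
  exact hs.sum_le_tsum S fun v _ => by positivity

theorem u_le {K : ℕ} (hK : 1 ≤ K) {w u v X : ℕ} (hv : 0 < v) (h1 : w * (u * v ^ 2) ≤ X)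
    (h2 : u ≤ w ^ (K - 1)) : (u : ℝ) ≤ ((X : ℝ) / (v : ℝ) ^ 2) ^ (((K : ℝ) - 1) / K) := by
  have hK0 : (0 : ℝ) < K := by exact_mod_cast hK
  have hv0 : (0 : ℝ) < (v : ℝ) ^ 2 := by positivity
  have h3 : (w : ℝ) * u ≤ (X : ℝ) / (v : ℝ) ^ 2 := by
    rw [le_div_iff₀ hv0]
    calc (w : ℝ) * u * (v : ℝ) ^ 2 = ((w * (u * v ^ 2) : ℕ) : ℝ) := by push_cast; ring
      _ ≤ X := by exact_mod_cast h1
  have h4 : (u : ℝ) ^ K ≤ ((X : ℝ) / (v : ℝ) ^ 2) ^ (K - 1) := by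
    have h5 : (u : ℝ) ≤ (w : ℝ) ^ (K - 1) := by exact_mod_cast h2
    calc (u : ℝ) ^ K = u * (u : ℝ) ^ (K - 1) := by
          rw [← pow_succ', Nat.sub_add_cancel hK]
      _ ≤ (w : ℝ) ^ (K - 1) * (u : ℝ) ^ (K - 1) := by gcongr
      _ = ((w : ℝ) * u) ^ (K - 1) := by rw [mul_pow]
      _ ≤ _ := by gcongr
  have hX : (0 : ℝ) ≤ (X : ℝ) / (v : ℝ) ^ 2 := by positivity
  calc (u : ℝ) = ((u : ℝ) ^ K) ^ ((K : ℝ)⁻¹) := by
        rw [Real.pow_rpow_inv_natCast (by positivity) (by omega)]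
    _ ≤ (((X : ℝ) / (v : ℝ) ^ 2) ^ (K - 1)) ^ ((K : ℝ)⁻¹) :=
        Real.rpow_le_rpow (by positivity) h4 (by positivity)
    _ = ((X : ℝ) / (v : ℝ) ^ 2) ^ (((K : ℝ) - 1) / K) := by
        rw [← Real.rpow_natCast, ← Real.rpow_mul hX, Nat.cast_sub hK, Nat.cast_one,
          ← div_eq_mul_inv ((K : ℝ) - 1)]

end Pool.Agent.TWQ
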