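import Pool.Agent.Lib_helper14.TWP.Quad

/-!
MP_df6280_nt. Power saving, part A: for a fixed cofactor `m` there are few coprime pairs `(Q, R)`
such that `N = Q R m` is the difference of two properties of a quadruple and, for each of the six
pairs of elements, `Q` and `R` divide different factors `r - s`, `r + s` of `N = r ^ 2 - s ^ 2`.
-/

set_option autoImplicit false

namespace Pool.Agent.TWQ

open Pool.Agent.TWP

/-- `Q` and `R` are split by all pairs -/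
def Split (a : Fin 4 → ℤ) (n₁ n₂ : ℤ) (Q R : ℕ) : Prop :=
  ∀ i j, i ≠ j → ∀ r s : ℕ, a i * a j + n₁ = (r : ℤ) ^ 2 → a i * a j + n₂ = (s : ℤ) ^ 2 →
    (Q ∣ r - s ∧ R ∣ r + s) ∨ (Q ∣ r + s ∧ R ∣ r - s)

theorem divisorQR {a : Fin 4 → ℤ} {n₁ n₂ : ℤ} (h : Two a n₁ n₂) {Q R m : ℕ} (hQ : 0 < Q)
    (hR : 0 < R) (hm : 0 < m) (hN : n₁ - n₂ = (Q : ℤ) * R * m) (hs : Split a n₁ n₂ Q R)
    (i j : Fin 4) (hij : i ≠ j) :
    ∃ e ∈ m.divisors, 4 * ((a i : ℝ) * a j + n₁) - 2 * ((Q : ℝ) * R * m) =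
      (Q : ℝ) ^ 2 * ((e : ℝ) ^ 2 + ((m : ℝ) * R / Q) ^ 2 / (e : ℝ) ^ 2) := by
  obtain ⟨r, s, hr, hs'⟩ := h.roots i j hij
  have h1 : (r : ℤ) ^ 2 - (s : ℤ) ^ 2 = (Q : ℤ) * R * m := by rw [← hr, ← hs', ← hN]; ring
  have hpm0 : (0 : ℤ) < (Q : ℤ) * R * m := by positivity
  have hr0 : (0 : ℤ) ≤ r := Int.natCast_nonneg r
  have hs0 : (0 : ℤ) ≤ s := Int.natCast_nonneg s
  have h2 : (s : ℤ) < r := by nlinarith
  have h2' : s < r := by exact_mod_cast h2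
  have h3 : (r - s) * (r + s) = Q * R * m := by
    zify [h2'.le]
    linear_combination h1
  have comp : ∀ e f : ℕ, (Q * e) * (R * f) = Q * R * m → Q * e + R * f = 2 * r →
      ∃ e ∈ m.divisors, 4 * ((a i : ℝ) * a j + n₁) - 2 * ((Q : ℝ) * R * m) =
        (Q : ℝ) ^ 2 * ((e : ℝ) ^ 2 + ((m : ℝ) * R / Q) ^ 2 / (e : ℝ) ^ 2) := by
    intro e f hef hsum
    have hef1 : e * f = m := by
      have h4 : (Q * R) * (e * f) = (Q * R) * m := by rw [← hef]; ring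
      exact Nat.eq_of_mul_eq_mul_left (Nat.mul_pos hQ hR) h4
    have he0 : e ≠ 0 := by
      rintro rfl
      rw [zero_mul] at hef1
      omega
    refine ⟨e, Nat.mem_divisors.2 ⟨⟨f, hef1.symm⟩, hm.ne'⟩, ?_⟩
    have e0 : (e : ℝ) ≠ 0 := by exact_mod_cast he0
    have Q0 : (Q : ℝ) ≠ 0 := by exact_mod_cast hQ.ne'
    have hef' : (e : ℝ) * f = m := by exact_mod_cast hef1
    have hsum' : (Q : ℝ) * e + R * f = 2 * r := by exact_mod_cast hsum
    have hr' : (a i : ℝ) * a j + n₁ = (r : ℝ) ^ 2 := by exact_mod_cast hr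
    rw [hr', ← hef']
    have h5 : (2 * (r : ℝ)) ^ 2 = ((Q : ℝ) * e + R * f) ^ 2 := by rw [hsum']
    have h6 : (Q : ℝ) ^ 2 * ((e : ℝ) ^ 2 + ((e : ℝ) * f * R / Q) ^ 2 / (e : ℝ) ^ 2) =
        (Q : ℝ) ^ 2 * (e : ℝ) ^ 2 + (R : ℝ) ^ 2 * (f : ℝ) ^ 2 := by
      field_simp
    rw [h6]
    linear_combination h5
  rcases hs i j hij r s hr hs' with ⟨⟨e, he⟩, ⟨f, hf⟩⟩ | ⟨⟨e, he⟩, ⟨f, hf⟩⟩
  · exact comp e f (by rw [← he, ← hf]; exact h3) (by rw [← he, ← hf]; omega)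
  · exact comp e f (by rw [← he, ← hf, mul_comm]; exact h3) (by rw [← he, ← hf]; omega)

theorem tupleQR {a : Fin 4 → ℤ} {n₁ n₂ : ℤ} (h : Two a n₁ n₂) {Q R m : ℕ} (hQ : 0 < Q)
    (hR : 0 < R) (hm : 0 < m) (hN : n₁ - n₂ = (Q : ℤ) * R * m) (hs : Split a n₁ n₂ Q R) :
    ∃ t : (Fin 3 → ℕ) × (Fin 3 → ℕ),
      (t.1 ∈ Fintype.piFinset fun _ => m.divisors) ∧ (t.2 ∈ Fintype.piFinset fun _ => m.divisors) ∧
      ¬ (c0 (uu t) (vv t) = 0 ∧ c1 (uu t) (vv t) = 0 ∧ c2 (uu t) (vv t) = 0) ∧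
      Fq (uu t) (vv t) (((m : ℝ) * R / Q) ^ 2) = 0 := by
  choose! e he heq using divisorQR h hQ hR hm hN hs
  have hinj := h.1
  have hne := h.2.1
  have Q0 : (Q : ℝ) ≠ 0 := by exact_mod_cast hQ.ne'
  have key : ∀ i j k l : Fin 4, i ≠ j → k ≠ l → (e i j : ℝ) ^ 2 = (e k l : ℝ) ^ 2 →
      a i * a j = a k * a l := by
    intro i j k l hij hkl hh
    have h1 := heq i j hij
    have h2 := heq k l hkl
    rw [hh] at h1
    have h3 : (a i : ℝ) * a j = (a k : ℝ) * a l := by linarith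
    exact_mod_cast h3
  -- cancellation
  have canc : ∀ i j k l : Fin 4, i ≠ j → k ≠ l →
      (i = k ∧ j ≠ l ∨ i = l ∧ j ≠ k ∨ j = k ∧ i ≠ l ∨ j = l ∧ i ≠ k) →
      (e i j : ℝ) ^ 2 ≠ (e k l : ℝ) ^ 2 := by
    intro i j k l hij hkl hc hh
    have h1 := key i j k l hij hkl hh
    rcases hc with ⟨rfl, h2⟩ | ⟨rfl, h2⟩ | ⟨rfl, h2⟩ | ⟨rfl, h2⟩
    · exact h2 (hinj (mul_left_cancel₀ (hne i) h1))
    · exact h2 (hinj (mul_left_cancel₀ (hne i) (by rw [h1]; ring)))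
    · exact h2 (hinj (mul_left_cancel₀ (hne j) (by rw [← h1]; ring)))
    · exact h2 (hinj (mul_right_cancel₀ (hne j) h1))
  let t : (Fin 3 → ℕ) × (Fin 3 → ℕ) := (![e 0 1, e 0 2, e 0 3], ![e 2 3, e 1 3, e 1 2])
  have ht1 : t.1 ∈ Fintype.piFinset fun _ => m.divisors := by
    rw [Fintype.mem_piFinset]
    intro k
    fin_cases k
    · exact he 0 1 (by decide)
    · exact he 0 2 (by decide)
    · exact he 0 3 (by decide)
  have ht2 : t.2 ∈ Fintype.piFinset fun _ => m.divisors := by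
    rw [Fintype.mem_piFinset]
    intro k
    fin_cases k
    · exact he 2 3 (by decide)
    · exact he 1 3 (by decide)
    · exact he 1 2 (by decide)
  have hpos1 : ∀ k, 0 < (t.1 k : ℝ) ^ 2 := fun k => by
    have := Nat.pos_of_mem_divisors (Fintype.mem_piFinset.1 ht1 k)
    positivity
  have hpos2 : ∀ k, 0 < (t.2 k : ℝ) ^ 2 := fun k => by
    have := Nat.pos_of_mem_divisors (Fintype.mem_piFinset.1 ht2 k)
    positivity
  refine ⟨t, ht1, ht2, ?_, ?_⟩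
  · refine no_identity (u := uu t) (v := vv t) (x := fun k => (t.1 k : ℝ) ^ 2)
      (y := fun k => (t.2 k : ℝ) ^ 2) (fun k => rfl) (fun k => rfl) hpos1 hpos2 ?_
    intro k l hkl
    fin_cases k <;> fin_cases l <;> first | exact absurd rfl hkl | skip
    all_goals
      refine ⟨?_, ?_, ?_, ?_⟩ <;>
        exact canc _ _ _ _ (by decide) (by decide) (by decide)
  · refine Fq_zero (u := uu t) (v := vv t) (x := fun k => (t.1 k : ℝ) ^ 2)
      (y := fun k => (t.2 k : ℝ) ^ 2) (fun k => rfl) (fun k => rfl) hpos1 hpos2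
      (ν := (4 * n₁ - 2 * ((Q : ℝ) * R * m)) / (Q : ℝ) ^ 2)
      (K := 16 * ((a 0 : ℝ) * a 1 * a 2 * a 3) / (Q : ℝ) ^ 4) ?_
    have g : ∀ i j : Fin 4, i ≠ j → (e i j : ℝ) ^ 2 + ((m : ℝ) * R / Q) ^ 2 / (e i j : ℝ) ^ 2 -
        (4 * n₁ - 2 * ((Q : ℝ) * R * m)) / (Q : ℝ) ^ 2 = 4 * (a i * a j) / (Q : ℝ) ^ 2 := by
      intro i j hij
      have h1 := heq i j hij
      rw [eq_div_iff (by positivity), sub_mul, div_mul_cancel₀ _ (by positivity)]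
      linarith
    intro k
    fin_cases k
    · show ((e 0 1 : ℝ) ^ 2 + _ / (e 0 1 : ℝ) ^ 2 - _) * ((e 2 3 : ℝ) ^ 2 + _ / (e 2 3 : ℝ) ^ 2 - _) = _
      rw [g 0 1 (by decide), g 2 3 (by decide)]
      field_simp
      ring
    · show ((e 0 2 : ℝ) ^ 2 + _ / (e 0 2 : ℝ) ^ 2 - _) * ((e 1 3 : ℝ) ^ 2 + _ / (e 1 3 : ℝ) ^ 2 - _) = _
      rw [g 0 2 (by decide), g 1 3 (by decide)]
      field_simp
      ring
    · show ((e 0 3 : ℝ) ^ 2 + _ / (e 0 3 : ℝ) ^ 2 - _) * ((e 1 2 : ℝ) ^ 2 + _ / (e 1 2 : ℝ) ^ 2 - _) = _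
      rw [g 0 3 (by decide), g 1 2 (by decide)]
      field_simp
      ring

/-- the pairs of a cofactor `m` -/
def Good (m : ℕ) (z : ℕ × ℕ) : Prop :=
  0 < z.1 ∧ 0 < z.2 ∧ Nat.Coprime z.1 z.2 ∧
    ∃ a n₁ n₂, Two a n₁ n₂ ∧ n₁ - n₂ = (z.1 : ℤ) * z.2 * m ∧ Split a n₁ n₂ z.1 z.2

/-- for a fixed cofactor `m` there are few pairs -/
theorem card_pairs {m : ℕ} (hm : 0 < m) (S : Finset (ℕ × ℕ)) (hS : ∀ z ∈ S, Good m z) :
    S.card ≤ 3 * m.divisors.card ^ 6 := by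
  classical
  let T := (Fintype.piFinset fun _ : Fin 3 => m.divisors) ×ˢ (Fintype.piFinset fun _ : Fin 3 => m.divisors)
  let St : (Fin 3 → ℕ) × (Fin 3 → ℕ) → Finset (ℕ × ℕ) := fun t =>
    S.filter fun z => ¬ (c0 (uu t) (vv t) = 0 ∧ c1 (uu t) (vv t) = 0 ∧ c2 (uu t) (vv t) = 0) ∧
      Fq (uu t) (vv t) (((m : ℝ) * z.2 / z.1) ^ 2) = 0
  have hsub : S ⊆ T.biUnion St := by
    intro z hz
    obtain ⟨h1, h2, -, a, n₁, n₂, h3, hN, h4⟩ := hS z hz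
    obtain ⟨t, t1, t2, t3, t4⟩ := tupleQR h3 h1 h2 hm hN h4
    exact Finset.mem_biUnion.2 ⟨t, Finset.mem_product.2 ⟨t1, t2⟩, Finset.mem_filter.2 ⟨hz, t3, t4⟩⟩
  have hm0 : (m : ℝ) ≠ 0 := by exact_mod_cast hm.ne'
  have hcard : ∀ t ∈ T, (St t).card ≤ 3 := by
    intro t ht
    by_cases hemp : (St t).Nonempty
    · obtain ⟨p0, hp0⟩ := hemp
      have hnd := (Finset.mem_filter.1 hp0).2.1
      have hinj : Set.InjOn (fun z : ℕ × ℕ => ((m : ℝ) * z.2 / z.1) ^ 2) (St t : Set (ℕ × ℕ)) := by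
        intro z hz z' hz' h
        obtain ⟨h1, h2, h3, -⟩ := hS z (Finset.mem_filter.1 hz).1
        obtain ⟨h1', h2', h3', -⟩ := hS z' (Finset.mem_filter.1 hz').1
        have p1 : (0 : ℝ) < z.1 := by exact_mod_cast h1
        have p2 : (0 : ℝ) < z.2 := by exact_mod_cast h2
        have p1' : (0 : ℝ) < z'.1 := by exact_mod_cast h1'
        have p2' : (0 : ℝ) < z'.2 := by exact_mod_cast h2'
        have e1 : (m : ℝ) * z.2 / z.1 = (m : ℝ) * z'.2 / z'.1 := by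
          have q1 : 0 ≤ (m : ℝ) * z.2 / z.1 := by positivity
          have q2 : 0 ≤ (m : ℝ) * z'.2 / z'.1 := by positivity
          exact (pow_left_inj₀ q1 q2 (by norm_num)).1 h
        rw [div_eq_div_iff p1.ne' p1'.ne'] at e1
        have e2 : (m : ℝ) * (z.2 * z'.1) = m * (z'.2 * z.1) := by linarith
        have e3 : z.2 * z'.1 = z'.2 * z.1 := by exact_mod_cast mul_left_cancel₀ hm0 e2
        have d1 : z.1 ∣ z'.1 := h3.dvd_of_dvd_mul_left (Dvd.intro_left z'.2 e3.symm)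
        have d2 : z'.1 ∣ z.1 := h3'.dvd_of_dvd_mul_left (Dvd.intro_left z.2 e3)
        have e4 : z.1 = z'.1 := Nat.dvd_antisymm d1 d2
        have e5 : z.2 = z'.2 := by
          rw [e4] at e3
          exact Nat.eq_of_mul_eq_mul_right h1' e3
        exact Prod.ext e4 e5
      rw [← Finset.card_image_of_injOn hinj]
      refine roots_card (uu t 0 * uu t 1 * uu t 2 * c0 (uu t) (vv t)) (c1 (uu t) (vv t))
        (c2 (uu t) (vv t)) (- c0 (uu t) (vv t)) ?_ _ ?_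
      · rintro ⟨-, h1, h2, h3⟩
        exact hnd ⟨neg_eq_zero.1 h3, h1, h2⟩
      · intro q hq
        obtain ⟨p, hp, rfl⟩ := Finset.mem_image.1 hq
        have h1 := (Finset.mem_filter.1 hp).2.2
        rw [Fq_eq] at h1
        linear_combination h1
    · rw [Finset.not_nonempty_iff_eq_empty] at hemp
      rw [hemp]; simp
  calc S.card ≤ (T.biUnion St).card := Finset.card_le_card hsub
    _ ≤ ∑ t ∈ T, (St t).card := Finset.card_biUnion_le
    _ ≤ T.card • 3 := Finset.sum_le_card_nsmul _ _ _ hcard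
    _ = 3 * m.divisors.card ^ 6 := by
        simp only [T, Finset.card_product, Fintype.card_piFinset, Finset.prod_const, Finset.card_univ,
          Fintype.card_fin, smul_eq_mul]
        ring

end Pool.Agent.TWQ
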