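import Pool.Agent.Lib_helper14.TWP.Quad

/-!
MP_df6280_nt. A prime `p` which divides a difference `N = p m` exactly once is at most `3 m ^ 2`.
-/

set_option autoImplicit false

namespace Pool.Agent.TWQ

open Pool.Agent.TWP

/-- determinant of three columns of integers -/
def dz (a b c : Fin 3 → ℤ) : ℤ :=
  a 0 * (b 1 * c 2 - b 2 * c 1) - a 1 * (b 0 * c 2 - b 2 * c 0) + a 2 * (b 0 * c 1 - b 1 * c 0)

def z0 (u v : Fin 3 → ℤ) : ℤ := dz (fun _ => 1) v u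
def z1 (u v : Fin 3 → ℤ) : ℤ := dz u (fun k => u k * v k) (fun k => v k ^ 2) + dz u v (fun k => u k ^ 2)
def z2 (u v : Fin 3 → ℤ) : ℤ := dz u (fun k => u k * v k) (fun _ => 1) + dz u v (fun k => v k ^ 2)

theorem dz_abs {a b c : Fin 3 → ℤ} {A B C : ℤ} (ha : ∀ k, 0 ≤ a k ∧ a k ≤ A)
    (hb : ∀ k, 0 ≤ b k ∧ b k ≤ B) (hc : ∀ k, 0 ≤ c k ∧ c k ≤ C) : |dz a b c| ≤ 3 * (A * B * C) := by
  have hA : 0 ≤ A := (ha 0).1.trans (ha 0).2
  have hB : 0 ≤ B := (hb 0).1.trans (hb 0).2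
  have hC : 0 ≤ C := (hc 0).1.trans (hc 0).2
  have br : ∀ i j, |b i * c j - b j * c i| ≤ B * C := by
    intro i j
    have h1 : 0 ≤ b i * c j := mul_nonneg (hb i).1 (hc j).1
    have h2 : 0 ≤ b j * c i := mul_nonneg (hb j).1 (hc i).1
    have h3 : b i * c j ≤ B * C := mul_le_mul (hb i).2 (hc j).2 (hc j).1 hB
    have h4 : b j * c i ≤ B * C := mul_le_mul (hb j).2 (hc i).2 (hc i).1 hB
    exact abs_le.2 ⟨by linarith, by linarith⟩
  have tm : ∀ k i j, |a k * (b i * c j - b j * c i)| ≤ A * B * C := by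
    intro k i j
    rw [abs_mul, abs_of_nonneg (ha k).1, mul_assoc]
    exact mul_le_mul (ha k).2 (br i j) (abs_nonneg _) hA
  have t0 := tm 0 1 2
  have t1 := tm 1 0 2
  have t2 := tm 2 0 1
  rw [dz]
  rw [abs_le] at t0 t1 t2 ⊢
  constructor <;> linarith [t0.1, t0.2, t1.1, t1.2, t2.1, t2.2]

theorem prime_le {a : Fin 4 → ℤ} {n₁ n₂ : ℤ} (h : Two a n₁ n₂) {p m : ℕ} (hp : p.Prime)
    (hpm : ¬ p ∣ m) (hN : n₁ - n₂ = (p : ℤ) * m) : p ≤ 3 * m ^ 2 := by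
  obtain ⟨t, ht1, ht2, hnd, hF⟩ := h.tuple hp hpm hN
  have hm : 0 < m := Nat.pos_of_ne_zero (by rintro rfl; exact hpm (dvd_zero p))
  have hM : (1 : ℤ) ≤ m := by exact_mod_cast hm
  rw [Fintype.mem_piFinset] at ht1 ht2
  let U : Fin 3 → ℤ := fun k => (t.1 k : ℤ) ^ 2 * (t.2 k : ℤ) ^ 2
  let V : Fin 3 → ℤ := fun k => (t.1 k : ℤ) ^ 2 + (t.2 k : ℤ) ^ 2
  have hUu : ∀ k, ((U k : ℤ) : ℝ) = uu t k := fun k => by simp [U, uu]
  have hVv : ∀ k, ((V k : ℤ) : ℝ) = vv t k := fun k => by simp [V, vv]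
  have e0 : ((z0 U V : ℤ) : ℝ) = c0 (uu t) (vv t) := by
    simp only [z0, dz, c0, dt, ← hUu, ← hVv]; push_cast; ring
  have e1 : ((z1 U V : ℤ) : ℝ) = c1 (uu t) (vv t) := by
    simp only [z1, dz, c1, dt, ← hUu, ← hVv]; push_cast; ring
  have e2 : ((z2 U V : ℤ) : ℝ) = c2 (uu t) (vv t) := by
    simp only [z2, dz, c2, dt, ← hUu, ← hVv]; push_cast; ring
  set q : ℤ := ((p : ℤ) * m) ^ 2 with hq
  have hFz : U 0 * U 1 * U 2 * z0 U V + z1 U V * q + z2 U V * q ^ 2 - z0 U V * q ^ 3 = 0 := by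
    rw [Fq_eq, ← e0, ← e1, ← e2, ← hUu, ← hUu, ← hUu] at hF
    have h1 : ((U 0 * U 1 * U 2 * z0 U V + z1 U V * q + z2 U V * q ^ 2 - z0 U V * q ^ 3 : ℤ) : ℝ) = 0 := by
      rw [hq]; push_cast; exact hF
    exact_mod_cast h1
  have hndz : ¬ (z0 U V = 0 ∧ z1 U V = 0 ∧ z2 U V = 0) := by
    rintro ⟨h0, h1, h2⟩
    exact hnd ⟨by rw [← e0, h0, Int.cast_zero], by rw [← e1, h1, Int.cast_zero],
      by rw [← e2, h2, Int.cast_zero]⟩
  -- sizes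
  have hx : ∀ k, (1 : ℤ) ≤ (t.1 k : ℤ) ∧ (t.1 k : ℤ) ≤ m := fun k => by
    have h1 := Nat.pos_of_mem_divisors (ht1 k)
    have h2 := Nat.divisor_le (ht1 k)
    exact ⟨by exact_mod_cast h1, by exact_mod_cast h2⟩
  have hy : ∀ k, (1 : ℤ) ≤ (t.2 k : ℤ) ∧ (t.2 k : ℤ) ≤ m := fun k => by
    have h1 := Nat.pos_of_mem_divisors (ht2 k)
    have h2 := Nat.divisor_le (ht2 k)
    exact ⟨by exact_mod_cast h1, by exact_mod_cast h2⟩
  have hx2 : ∀ k, (1 : ℤ) ≤ (t.1 k : ℤ) ^ 2 ∧ (t.1 k : ℤ) ^ 2 ≤ (m : ℤ) ^ 2 := fun k =>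
    ⟨one_le_pow₀ (hx k).1, pow_le_pow_left₀ (by linarith [(hx k).1]) (hx k).2 2⟩
  have hy2 : ∀ k, (1 : ℤ) ≤ (t.2 k : ℤ) ^ 2 ∧ (t.2 k : ℤ) ^ 2 ≤ (m : ℤ) ^ 2 := fun k =>
    ⟨one_le_pow₀ (hy k).1, pow_le_pow_left₀ (by linarith [(hy k).1]) (hy k).2 2⟩
  have hU : ∀ k, 0 ≤ U k ∧ U k ≤ (m : ℤ) ^ 4 := fun k => by
    refine ⟨by positivity, ?_⟩
    calc U k ≤ (m : ℤ) ^ 2 * (m : ℤ) ^ 2 :=
          mul_le_mul (hx2 k).2 (hy2 k).2 (by positivity) (by positivity)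
      _ = (m : ℤ) ^ 4 := by ring
  have hV : ∀ k, 0 ≤ V k ∧ V k ≤ 2 * (m : ℤ) ^ 2 := fun k =>
    ⟨by positivity, by show (t.1 k : ℤ) ^ 2 + (t.2 k : ℤ) ^ 2 ≤ _; linarith [(hx2 k).2, (hy2 k).2]⟩
  have hUV : ∀ k, 0 ≤ U k * V k ∧ U k * V k ≤ (m : ℤ) ^ 4 * (2 * (m : ℤ) ^ 2) := fun k =>
    ⟨mul_nonneg (hU k).1 (hV k).1, mul_le_mul (hU k).2 (hV k).2 (hV k).1 (by positivity)⟩
  have hV2 : ∀ k, 0 ≤ V k ^ 2 ∧ V k ^ 2 ≤ (2 * (m : ℤ) ^ 2) ^ 2 := fun k =>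
    ⟨by positivity, pow_le_pow_left₀ (hV k).1 (hV k).2 2⟩
  have hU2 : ∀ k, 0 ≤ U k ^ 2 ∧ U k ^ 2 ≤ ((m : ℤ) ^ 4) ^ 2 := fun k =>
    ⟨by positivity, pow_le_pow_left₀ (hU k).1 (hU k).2 2⟩
  have b1 : |z1 U V| ≤ 30 * (m : ℤ) ^ 14 := by
    have h1 := dz_abs hU hUV hV2
    have h2 := dz_abs hU hV hU2
    refine (abs_add_le _ _).trans ?_
    nlinarith [h1, h2]
  have b2 : |z2 U V| ≤ 30 * (m : ℤ) ^ 10 := by
    have h1 := dz_abs (c := fun _ => 1) (C := 1) hU hUV (fun _ => ⟨by norm_num, le_refl _⟩)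
    have h2 := dz_abs hU hV hV2
    refine (abs_add_le _ _).trans ?_
    nlinarith [h1, h2]
  have b3 : 0 ≤ U 0 * U 1 * U 2 ∧ U 0 * U 1 * U 2 ≤ (m : ℤ) ^ 12 := by
    have h1 : U 0 * U 1 ≤ (m : ℤ) ^ 4 * (m : ℤ) ^ 4 := mul_le_mul (hU 0).2 (hU 1).2 (hU 1).1 (by positivity)
    have h2 : 0 ≤ U 0 * U 1 := mul_nonneg (hU 0).1 (hU 1).1
    refine ⟨mul_nonneg h2 (hU 2).1, ?_⟩
    calc U 0 * U 1 * U 2 ≤ (m : ℤ) ^ 4 * (m : ℤ) ^ 4 * (m : ℤ) ^ 4 :=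
          mul_le_mul h1 (hU 2).2 (hU 2).1 (by positivity)
      _ = (m : ℤ) ^ 12 := by ring
  by_contra hcon
  push Not at hcon
  have hx3 : 3 * (m : ℤ) ^ 2 < p := by exact_mod_cast hcon
  have hp0 : (0 : ℤ) < p := by exact_mod_cast hp.pos
  have hm2 : (1 : ℤ) ≤ (m : ℤ) ^ 2 := one_le_pow₀ hM
  have hpp : 9 * (m : ℤ) ^ 4 ≤ (p : ℤ) ^ 2 := by
    calc 9 * (m : ℤ) ^ 4 = (3 * (m : ℤ) ^ 2) ^ 2 := by ring
      _ ≤ (p : ℤ) ^ 2 := pow_le_pow_left₀ (by positivity) hx3.le 2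
  have hq6 : 9 * (m : ℤ) ^ 6 ≤ q := by
    calc 9 * (m : ℤ) ^ 6 = 9 * (m : ℤ) ^ 4 * (m : ℤ) ^ 2 := by ring
      _ ≤ (p : ℤ) ^ 2 * (m : ℤ) ^ 2 := by gcongr
      _ = q := by rw [hq]; ring
  have hqpos : 0 < q := by positivity
  by_cases h0 : z0 U V = 0
  · -- collinear case
    have h1 : z1 U V = - z2 U V * q := by
      have h2 : q * (z1 U V + z2 U V * q) = 0 := by rw [h0] at hFz; linear_combination hFz
      rcases mul_eq_zero.1 h2 with h3 | h3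
      · exact absurd h3 hqpos.ne'
      · linarith
    have hz2 : z2 U V ≠ 0 := by
      intro h2
      exact hndz ⟨h0, by rw [h1, h2]; ring, h2⟩
    have g01 : U 0 * V 1 - U 1 * V 0 = q * (V 0 - V 1) := by
      have h3 : z2 U V * ((U 0 * V 1 - U 1 * V 0) - q * (V 0 - V 1)) = 0 := by
        have h4 : z1 U V * (V 0 - V 1) + z2 U V * (U 0 * V 1 - U 1 * V 0) =
            z0 U V * ((-1) * U 1 * V 0 ^ 2 * V 2 + (1) * U 1 * U 2 * V 0 + (1) * U 0 * V 1 ^ 2 * V 2 +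
              (-1) * U 0 * U 2 * V 1 + (-1) * U 0 * U 1 * V 1 + (1) * U 0 * U 1 * V 0) := by
          simp only [z0, z1, z2, dz]; ring
        rw [h0, h1] at h4
        linear_combination h4
      rcases mul_eq_zero.1 h3 with h4 | h4
      · exact absurd h4 hz2
      · linarith
    have g02 : U 0 * V 2 - U 2 * V 0 = q * (V 0 - V 2) := by
      have h3 : z2 U V * ((U 0 * V 2 - U 2 * V 0) - q * (V 0 - V 2)) = 0 := by
        have h4 : z1 U V * (V 0 - V 2) + z2 U V * (U 0 * V 2 - U 2 * V 0) =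
            z0 U V * ((-1) * U 2 * V 0 ^ 2 * V 1 + (1) * U 1 * U 2 * V 0 + (1) * U 0 * V 1 * V 2 ^ 2 +
              (-1) * U 0 * U 2 * V 2 + (1) * U 0 * U 2 * V 0 + (-1) * U 0 * U 1 * V 2) := by
          simp only [z0, z1, z2, dz]; ring
        rw [h0, h1] at h4
        linear_combination h4
      rcases mul_eq_zero.1 h3 with h4 | h4
      · exact absurd h4 hz2
      · linarith
    have small : ∀ k l, U k * V l - U l * V k = q * (V k - V l) → V k = V l := by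
      intro k l hkl
      by_contra hne
      have h3 : 1 ≤ |V k - V l| := Int.one_le_abs (sub_ne_zero.2 hne)
      have h4 : |U k * V l - U l * V k| ≤ (m : ℤ) ^ 4 * (2 * (m : ℤ) ^ 2) := by
        have i1 : 0 ≤ U k * V l := mul_nonneg (hU k).1 (hV l).1
        have i2 : 0 ≤ U l * V k := mul_nonneg (hU l).1 (hV k).1
        have i3 : U k * V l ≤ (m : ℤ) ^ 4 * (2 * (m : ℤ) ^ 2) :=
          mul_le_mul (hU k).2 (hV l).2 (hV l).1 (by positivity)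
        have i4 : U l * V k ≤ (m : ℤ) ^ 4 * (2 * (m : ℤ) ^ 2) :=
          mul_le_mul (hU l).2 (hV k).2 (hV k).1 (by positivity)
        exact abs_le.2 ⟨by linarith, by linarith⟩
      rw [hkl, abs_mul, abs_of_pos hqpos] at h4
      have h5 : q ≤ q * |V k - V l| := le_mul_of_one_le_right hqpos.le h3
      have h6 : (m : ℤ) ^ 4 * (2 * (m : ℤ) ^ 2) = 2 * (m : ℤ) ^ 6 := by ring
      have h7 : (0 : ℤ) < (m : ℤ) ^ 6 := by positivity
      linarith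
    have v01 := small 0 1 g01
    have v02 := small 0 2 g02
    rw [v01] at g01
    rw [v02] at g02
    have hVpos : 0 < V 0 := by
      show 0 < (t.1 0 : ℤ) ^ 2 + (t.2 0 : ℤ) ^ 2
      linarith [(hx2 0).1, (hy2 0).1]
    have u01 : U 0 = U 1 := by
      have h3 : V 1 * (U 0 - U 1) = 0 := by linear_combination g01
      rcases mul_eq_zero.1 h3 with h4 | h4
      · rw [v01] at hVpos; omega
      · linarith
    have u02 : U 0 = U 2 := by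
      have h3 : V 2 * (U 0 - U 2) = 0 := by linear_combination g02
      rcases mul_eq_zero.1 h3 with h4 | h4
      · rw [v02] at hVpos; omega
      · linarith
    apply hz2
    simp only [z2, dz]
    rw [← u01, ← u02, ← v01, ← v02]
    ring
  · -- the generic case
    have hdvd : (p : ℤ) ^ 2 ∣ z0 U V := by
      have hc : IsCoprime ((p : ℤ) ^ 2) (U 0 * U 1 * U 2) := by
        have h1 : ∀ d : ℕ, d ∈ m.divisors → IsCoprime (p : ℤ) (d : ℤ) := by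
          intro d hd
          rw [Nat.isCoprime_iff_coprime]
          refine (Nat.Prime.coprime_iff_not_dvd hp).2 fun h2 => hpm (h2.trans (Nat.dvd_of_mem_divisors hd))
        have h2 : ∀ k, IsCoprime (p : ℤ) (U k) := fun k =>
          (IsCoprime.pow_right (h1 _ (ht1 k))).mul_right (IsCoprime.pow_right (h1 _ (ht2 k)))
        exact IsCoprime.pow_left (((h2 0).mul_right (h2 1)).mul_right (h2 2))
      refine hc.dvd_of_dvd_mul_left ⟨-(z1 U V * (m : ℤ) ^ 2 + z2 U V * (m : ℤ) ^ 2 * q -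
        z0 U V * (m : ℤ) ^ 2 * q ^ 2), ?_⟩
      have h3 : q = (p : ℤ) ^ 2 * (m : ℤ) ^ 2 := by rw [hq]; ring
      calc U 0 * U 1 * U 2 * z0 U V = -(z1 U V * q + z2 U V * q * q - z0 U V * q * q ^ 2) := by
            linear_combination hFz
        _ = _ := by
            rw [show z1 U V * q + z2 U V * q * q - z0 U V * q * q ^ 2 =
              (z1 U V + z2 U V * q - z0 U V * q ^ 2) * q by ring]
            nth_rewrite 3 [h3]
            ring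
    have hZ : (p : ℤ) ^ 2 ≤ |z0 U V| := by
      have h1 : (p : ℤ) ^ 2 ∣ |z0 U V| := (dvd_abs _ _).2 hdvd
      exact Int.le_of_dvd (abs_pos.2 h0) h1
    set Z := |z0 U V| with hZd
    have hZ0 : 0 < Z := abs_pos.2 h0
    have hmain : Z * q ^ 3 ≤ 30 * (m : ℤ) ^ 10 * q ^ 2 + 30 * (m : ℤ) ^ 14 * q + (m : ℤ) ^ 12 * Z := by
      have h1 : z0 U V * q ^ 3 = U 0 * U 1 * U 2 * z0 U V + z1 U V * q + z2 U V * q ^ 2 := by
        linear_combination -hFz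
      have h2 : Z * q ^ 3 = |z0 U V * q ^ 3| := by
        rw [abs_mul, abs_of_pos (pow_pos hqpos 3)]
      rw [h2, h1]
      have h3 : |U 0 * U 1 * U 2 * z0 U V + z1 U V * q + z2 U V * q ^ 2| ≤
          |U 0 * U 1 * U 2 * z0 U V| + |z1 U V * q| + |z2 U V * q ^ 2| := abs_add_three _ _ _
      have h4 : |U 0 * U 1 * U 2 * z0 U V| ≤ (m : ℤ) ^ 12 * Z := by
        rw [abs_mul, abs_of_nonneg b3.1]
        exact mul_le_mul_of_nonneg_right b3.2 hZ0.le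
      have h5 : |z1 U V * q| ≤ 30 * (m : ℤ) ^ 14 * q := by
        rw [abs_mul, abs_of_pos hqpos]
        exact mul_le_mul_of_nonneg_right b1 hqpos.le
      have h6 : |z2 U V * q ^ 2| ≤ 30 * (m : ℤ) ^ 10 * q ^ 2 := by
        rw [abs_mul, abs_of_pos (pow_pos hqpos 2)]
        exact mul_le_mul_of_nonneg_right b2 (pow_pos hqpos 2).le
      linarith
    have i1 : 81 * (m : ℤ) ^ 10 ≤ Z * q := by
      calc 81 * (m : ℤ) ^ 10 = 9 * (m : ℤ) ^ 4 * (9 * (m : ℤ) ^ 6) := by ring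
        _ ≤ Z * q := mul_le_mul (hpp.trans hZ) hq6 (by positivity) hZ0.le
    have i2 : 729 * (m : ℤ) ^ 14 ≤ Z * q ^ 2 := by
      calc 729 * (m : ℤ) ^ 14 ≤ 729 * (m : ℤ) ^ 16 := by
            have : (m : ℤ) ^ 14 ≤ (m : ℤ) ^ 16 := pow_le_pow_right₀ hM (by norm_num)
            linarith
        _ = 81 * (m : ℤ) ^ 10 * (9 * (m : ℤ) ^ 6) := by ring
        _ ≤ Z * q * q := mul_le_mul i1 hq6 (by positivity) (by positivity)
        _ = Z * q ^ 2 := by ring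
    have i3 : 729 * (m : ℤ) ^ 12 ≤ q ^ 3 := by
      calc 729 * (m : ℤ) ^ 12 ≤ 729 * (m : ℤ) ^ 18 := by
            have : (m : ℤ) ^ 12 ≤ (m : ℤ) ^ 18 := pow_le_pow_right₀ hM (by norm_num)
            linarith
        _ = (9 * (m : ℤ) ^ 6) ^ 3 := by ring
        _ ≤ q ^ 3 := pow_le_pow_left₀ (by positivity) hq6 3
    have j1 : 81 * (30 * (m : ℤ) ^ 10 * q ^ 2) ≤ 30 * (Z * q ^ 3) := by
      have := mul_le_mul_of_nonneg_right i1 (show (0 : ℤ) ≤ 30 * q ^ 2 by positivity)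
      calc 81 * (30 * (m : ℤ) ^ 10 * q ^ 2) = 81 * (m : ℤ) ^ 10 * (30 * q ^ 2) := by ring
        _ ≤ Z * q * (30 * q ^ 2) := this
        _ = 30 * (Z * q ^ 3) := by ring
    have j2 : 729 * (30 * (m : ℤ) ^ 14 * q) ≤ 30 * (Z * q ^ 3) := by
      have := mul_le_mul_of_nonneg_right i2 (show (0 : ℤ) ≤ 30 * q by positivity)
      calc 729 * (30 * (m : ℤ) ^ 14 * q) = 729 * (m : ℤ) ^ 14 * (30 * q) := by ring
        _ ≤ Z * q ^ 2 * (30 * q) := this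
        _ = 30 * (Z * q ^ 3) := by ring
    have j3 : 729 * ((m : ℤ) ^ 12 * Z) ≤ Z * q ^ 3 := by
      have := mul_le_mul_of_nonneg_right i3 hZ0.le
      calc 729 * ((m : ℤ) ^ 12 * Z) = 729 * (m : ℤ) ^ 12 * Z := by ring
        _ ≤ q ^ 3 * Z := this
        _ = Z * q ^ 3 := by ring
    have j4 : 0 < Z * q ^ 3 := mul_pos hZ0 (pow_pos hqpos 3)
    linarith

end Pool.Agent.TWQ
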