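import Pool.Agent.Lib_helper39.TWQ.Pair

/-!
MP_df6280_nt. For a given difference `N` there are few tuples with two properties.
-/

set_option autoImplicit false

namespace Pool.Agent.TWQ

open Pool.Agent.TWP Finset

/-- a `D(n)`-`k`-tuple of distinct non-zero integers -/
def Tup {k : ℕ} (a : Fin k → ℤ) (n : ℤ) : Prop :=
  Function.Injective a ∧ (∀ i, a i ≠ 0) ∧ ∀ i j, i ≠ j → IsSquare (a i * a j + n)

/-- a difference of two properties of a quadruple -/
def Dif (N : ℕ) : Prop := ∃ (a : Fin 4 → ℤ) (n : ℤ), Tup a n ∧ Tup a (n + N)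

theorem two_of {a : Fin 4 → ℤ} {n₁ n₂ : ℤ} (h1 : Tup a n₁) (h2 : Tup a n₂) : Two a n₁ n₂ :=
  ⟨h1.1, h1.2.1, fun i j hij => ⟨h1.2.2 i j hij, h2.2.2 i j hij⟩⟩

/-- products determine the tuple -/
theorem rigid {k : ℕ} (hk : 4 ≤ k) {a b : Fin k → ℤ} {n n' : ℤ} (hb : Function.Injective b)
    (ha0 : ∀ i, a i ≠ 0) (h : ∀ i j, i ≠ j → a i * a j + n = b i * b j + n')
    (hs : 0 < a ⟨0, by omega⟩ ↔ 0 < b ⟨0, by omega⟩) : a = b ∧ n = n' := by
  set i0 : Fin k := ⟨0, by omega⟩ with hi0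
  set i1 : Fin k := ⟨1, by omega⟩ with hi1
  set i2 : Fin k := ⟨2, by omega⟩ with hi2
  set i3 : Fin k := ⟨3, by omega⟩ with hi3
  have n01 : i0 ≠ i1 := by simp [hi0, hi1]
  have n02 : i0 ≠ i2 := by simp [hi0, hi2]
  have n03 : i0 ≠ i3 := by simp [hi0, hi3]
  have n12 : i1 ≠ i2 := by simp [hi1, hi2]
  have n13 : i1 ≠ i3 := by simp [hi1, hi3]
  have n23 : i2 ≠ i3 := by simp [hi2, hi3]
  have h01 := h _ _ n01
  have h02 := h _ _ n02
  have h13 := h _ _ n13
  have h23 := h _ _ n23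
  have h12 := h _ _ n12
  have hx : n = n' := by
    have e : (n' - n) * ((b i0 - b i3) * (b i1 - b i2)) = 0 := by
      have e1 : a i0 * a i1 = b i0 * b i1 + (n' - n) := by linarith
      have e2 : a i2 * a i3 = b i2 * b i3 + (n' - n) := by linarith
      have e3 : a i0 * a i2 = b i0 * b i2 + (n' - n) := by linarith
      have e4 : a i1 * a i3 = b i1 * b i3 + (n' - n) := by linarith
      have e5 : (a i0 * a i1) * (a i2 * a i3) = (a i0 * a i2) * (a i1 * a i3) := by ring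
      rw [e1, e2, e3, e4] at e5
      linear_combination e5
    rcases mul_eq_zero.1 e with e | e
    · linarith
    · rcases mul_eq_zero.1 e with e | e
      · exact absurd (hb (sub_eq_zero.1 e)) n03
      · exact absurd (hb (sub_eq_zero.1 e)) n12
  subst hx
  have h' : ∀ i j, i ≠ j → a i * a j = b i * b j := fun i j hij => by linarith [h i j hij]
  have e0 : a i0 = b i0 := by
    have e1 : (a i1 * a i2) * ((a i0 - b i0) * (a i0 + b i0)) = 0 := by
      have f1 := h' _ _ n01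
      have f2 := h' _ _ n02
      have f3 := h' _ _ n12
      have f4 : (a i0 * a i1) * (a i0 * a i2) = (b i0 * b i1) * (b i0 * b i2) := by rw [f1, f2]
      linear_combination f4 - b i0 ^ 2 * f3
    rcases mul_eq_zero.1 e1 with e1 | e1
    · exact absurd e1 (mul_ne_zero (ha0 _) (ha0 _))
    · rcases mul_eq_zero.1 e1 with e1 | e1
      · linarith
      · exfalso
        have e2 : a i0 = - b i0 := by linarith
        rw [e2] at hs
        have h0 := ha0 i0
        rcases lt_or_gt_of_ne h0 with h3 | h3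
        · have h4 : 0 < b i0 := by linarith
          have := hs.2 h4
          linarith
        · have h4 : 0 < -b i0 := by linarith
          have := hs.1 h4
          linarith
  refine ⟨?_, rfl⟩
  funext j
  by_cases hj : j = i0
  · rw [hj]; exact e0
  · have h1 := h' i0 j (Ne.symm hj)
    rw [← e0] at h1
    exact mul_left_cancel₀ (ha0 i0) h1

/-- all `k`-tuples with two properties at distance at most `X` -/
def Dbl (k X : ℕ) : Set ((Fin k → ℤ) × ℤ × ℤ) :=
  {t | Tup t.1 t.2.1 ∧ Tup t.1 t.2.2 ∧ t.2.1 < t.2.2 ∧ t.2.2 ≤ t.2.1 + X}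

/-- the possible larger roots -/
def HH (N : ℕ) : Finset ℕ := N.divisors.image fun e => (e + N / e) / 2

theorem HH_card (N : ℕ) : (HH N).card ≤ N.divisors.card := Finset.card_image_le

theorem root_mem {N r s : ℕ} (hN : 0 < N) (h : (r : ℤ) ^ 2 - (s : ℤ) ^ 2 = N) : r ∈ HH N := by
  have h4 : (0 : ℤ) < N := by exact_mod_cast hN
  have hr0 : (0 : ℤ) ≤ r := Int.natCast_nonneg _
  have hs0 : (0 : ℤ) ≤ s := Int.natCast_nonneg _
  have h5 : (s : ℤ) < r := by nlinarith
  have h6 : s < r := by exact_mod_cast h5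
  have h7 : (r - s) * (r + s) = N := by
    zify [h6.le]
    linear_combination h
  have h8 : 0 < r - s := by omega
  refine Finset.mem_image.2 ⟨r - s, Nat.mem_divisors.2 ⟨⟨_, h7.symm⟩, hN.ne'⟩, ?_⟩
  have h9 : N / (r - s) = r + s := by
    rw [← h7]
    exact Nat.mul_div_cancel_left _ h8
  rw [h9]
  omega

theorem one_mem {N : ℕ} (hN : 0 < N) : (1 + N) / 2 ∈ HH N :=
  Finset.mem_image.2 ⟨1, Nat.mem_divisors.2 ⟨one_dvd _, hN.ne'⟩, by rw [Nat.div_one]⟩

/-- root of a square -/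
def rt (z : ℤ) : ℕ := Nat.sqrt z.toNat

theorem rt_sq {z : ℤ} (h : IsSquare z) : ((rt z : ℕ) : ℤ) ^ 2 = z := by
  obtain ⟨r, rfl⟩ := h
  have h1 : (r * r).toNat = r.natAbs * r.natAbs := by
    rw [← Int.natAbs_mul]
    have := Int.toNat_of_nonneg (mul_self_nonneg r)
    have h2 : ((r * r).natAbs : ℤ) = r * r := Int.natAbs_of_nonneg (mul_self_nonneg r)
    omega
  rw [rt, h1, Nat.sqrt_eq]
  rw [Int.natCast_natAbs, sq_abs]; ring

open Classical in
theorem dbl_count {k : ℕ} (hk : 4 ≤ k) (X : ℕ) : (Dbl k X).Finite ∧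
    (Dbl k X).ncard ≤ ∑ N ∈ (Ioc 0 X).filter fun N => Dif N, 2 * N.divisors.card ^ (k * k) := by
  let i0 : Fin k := ⟨0, by omega⟩
  let f : (Fin k → ℤ) × ℤ × ℤ → ℕ × Bool × (Fin k → Fin k → ℕ) := fun t =>
    ((t.2.2 - t.2.1).toNat, decide (0 < t.1 i0),
      fun i j => if i = j then (1 + (t.2.2 - t.2.1).toNat) / 2 else rt (t.1 i * t.1 j + t.2.2))
  let T : Finset (ℕ × Bool × (Fin k → Fin k → ℕ)) := ((Ioc 0 X).filter fun N => Dif N).biUnion fun N =>
    ({N} : Finset ℕ) ×ˢ ((Finset.univ : Finset Bool) ×ˢ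
      (Fintype.piFinset fun _ : Fin k => Fintype.piFinset fun _ : Fin k => HH N))
  have hT : T.card ≤ ∑ N ∈ (Ioc 0 X).filter fun N => Dif N, 2 * N.divisors.card ^ (k * k) := by
    refine Finset.card_biUnion_le.trans (Finset.sum_le_sum fun N _ => ?_)
    simp only [Finset.card_product, Finset.card_singleton, Finset.card_univ, Fintype.card_bool,
      Fintype.card_piFinset, Finset.prod_const, Fintype.card_fin, one_mul]
    rw [← pow_mul]
    exact Nat.mul_le_mul_left 2 (Nat.pow_le_pow_left (HH_card N) _)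
  have hmaps : Set.MapsTo f (Dbl k X) (T : Set (ℕ × Bool × (Fin k → Fin k → ℕ))) := by
    rintro ⟨a, n₁, n₂⟩ ⟨h1, h2, h3, h4⟩
    simp only at h1 h2 h3 h4
    set N := (n₂ - n₁).toNat with hN
    have hN1 : (N : ℤ) = n₂ - n₁ := Int.toNat_of_nonneg (by omega)
    have hN0 : 0 < N := by omega
    have hNX : N ≤ X := by omega
    have hdif : Dif N := by
      let ι : Fin 4 → Fin k := Fin.castLE hk
      have hι : Function.Injective ι := Fin.castLE_injective hk
      refine ⟨fun i => a (ι i), n₁, ⟨h1.1.comp hι, fun i => h1.2.1 _, fun i j hij =>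
        h1.2.2 _ _ (hι.ne hij)⟩, ⟨h1.1.comp hι, fun i => h1.2.1 _, fun i j hij => ?_⟩⟩
      rw [hN1, show n₁ + (n₂ - n₁) = n₂ by ring]
      exact h2.2.2 _ _ (hι.ne hij)
    refine Finset.mem_coe.2 (Finset.mem_biUnion.2 ⟨N, Finset.mem_filter.2
      ⟨Finset.mem_Ioc.2 ⟨hN0, hNX⟩, hdif⟩, Finset.mem_product.2 ⟨Finset.mem_singleton.2 rfl,
        Finset.mem_product.2 ⟨Finset.mem_univ _, ?_⟩⟩⟩)
    rw [Fintype.mem_piFinset]
    intro i
    rw [Fintype.mem_piFinset]
    intro j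
    show (if i = j then (1 + N) / 2 else rt (a i * a j + n₂)) ∈ HH N
    by_cases hij : i = j
    · rw [if_pos hij]; exact one_mem hN0
    · rw [if_neg hij]
      have q1 := rt_sq (h1.2.2 i j hij)
      have q2 := rt_sq (h2.2.2 i j hij)
      exact root_mem (s := rt (a i * a j + n₁)) hN0 (by rw [q1, q2, hN1]; ring)
  have hinj : Set.InjOn f (Dbl k X) := by
    rintro ⟨a, n₁, n₂⟩ ⟨h1, h2, h3, h4⟩ ⟨b, n₁', n₂'⟩ ⟨h1', h2', h3', h4'⟩ hf
    simp only at h1 h2 h3 h4 h1' h2' h3' h4'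
    simp only [f, Prod.mk.injEq] at hf
    obtain ⟨hf1, hf2, hf3⟩ := hf
    have hs : 0 < a i0 ↔ 0 < b i0 := by
      simpa using hf2
    have hab : ∀ i j, i ≠ j → a i * a j + n₂ = b i * b j + n₂' := by
      intro i j hij
      have h5 := congrFun (congrFun hf3 i) j
      simp only [if_neg hij] at h5
      rw [← rt_sq (h2.2.2 i j hij), ← rt_sq (h2'.2.2 i j hij), h5]
    obtain ⟨e1, e2⟩ := rigid hk h1'.1 h1.2.1 hab hs
    have e3 : n₁ = n₁' := by omega
    rw [e1, e2, e3]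
  refine ⟨Set.Finite.of_injOn hmaps hinj T.finite_toSet, ?_⟩
  refine (Set.ncard_le_ncard_of_injOn f hmaps hinj T.finite_toSet).trans ?_
  rw [Set.ncard_coe_finset]
  exact hT

end Pool.Agent.TWQ
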